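import Pool.Agent.Q228.UR.CondA
import Pool.Agent.Q228.UR.Compl

/-!
# Uniform regularity and condition (a) do not imply relative weak compactness in free spaces
over `ℝ`-trees

There are a complete `ℝ`-tree `T` and a bounded, uniformly regular set `W` in the Lipschitz free
space of `T` which satisfies (a) and is not relatively weakly compact.
-/

set_option autoImplicit false

noncomputable section

namespace Pool.Agent.Results.MP_13bb8c_an.UniformRegularityFails

open Pool.Agent.H266R3.LF (Lip0 dlt dlt_mem FreeSp)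

/-- `S` is an arc with endpoints `x` and `y`: the range of a continuous injection of `[0, 1]` -/
def IsArc {T : Type} [TopologicalSpace T] (x y : T) (S : Set T) : Prop :=
  ∃ φ : unitInterval → T, Continuous φ ∧ Function.Injective φ ∧ φ 0 = x ∧ φ 1 = y ∧
    Set.range φ = S

/-- `T` is an `ℝ`-tree: any two distinct points `x`, `y` are joined by a unique arc, and this arc
is isometric to the interval `[0, d(x, y)]` -/
def IsRTree (T : Type) [MetricSpace T] : Prop :=
  ∀ x y : T, x ≠ y → ∃ S : Set T, IsArc x y S ∧ (∀ S', IsArc x y S' → S' = S) ∧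
    ∃ ψ : Set.Icc (0 : ℝ) (dist x y) → T, Isometry ψ ∧ Set.range ψ = S

variable {M : Type} [MetricSpace M] {o : M}

/-- `δ(x)` as an element of the Lipschitz free space `F(M)` -/
def delta (x : M) : FreeSp M o := ⟨dlt M o x, dlt_mem x⟩

/-- the molecule `m_{xy}` -/
def molecule (x y : M) : FreeSp M o := (dist x y)⁻¹ • (delta x - delta y)

/-- `γ = ∑ a_i m_{x_i y_i}` is a convex sum of molecules: `x_i ≠ y_i` and `‖γ‖ = ∑ |a_i|` -/
def IsConvexSum {n : ℕ} (γ : FreeSp M o) (a : Fin n → ℝ) (x y : Fin n → M) : Prop :=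
  (∀ i, x i ≠ y i) ∧ γ = ∑ i, a i • molecule (x i) (y i) ∧ ‖γ‖ = ∑ i, |a i|

/-- condition (a) for a (nonempty) set `W` -/
def CondA (W : Set (FreeSp M o)) : Prop :=
  ∀ ε : ℝ, 0 < ε → ∃ δ : ℝ, 0 < δ ∧ ∀ (n : ℕ) (γ : FreeSp M o) (a : Fin n → ℝ) (x y : Fin n → M),
    IsConvexSum γ a x y → ∀ I : Finset (Fin n), ∑ i ∈ I, dist (x i) (y i) < δ →
      ∑ i ∈ I, |a i| ≤ ε + Metric.infDist γ W

/-- `F(A)`: the closed linear span of `δ(x)`, `x ∈ A`, inside `F(M)` -/
def freeOn (A : Set M) : Submodule ℝ (FreeSp M o) :=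
  (Submodule.span ℝ (delta '' A)).topologicalClosure

/-- uniform regularity: for every open `U` and `ε > 0` there is a compact `K ⊆ U` such that every
element of `W` is at distance at most `ε` from some element of `F(K ∪ (M \ U))` -/
def UniformlyRegular (W : Set (FreeSp M o)) : Prop :=
  ∀ U : Set M, IsOpen U → ∀ ε : ℝ, 0 < ε → ∃ K : Set M, IsCompact K ∧ K ⊆ U ∧
    ∀ γ ∈ W, ∃ v ∈ freeOn (K ∪ Uᶜ), ‖γ - v‖ ≤ ε

/-- relative weak compactness: the weak closure is weakly compact -/
def RelativelyWeaklyCompact (W : Set (FreeSp M o)) : Prop :=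
  IsCompact (closure (toWeakSpace ℝ (FreeSp M o) '' W))

/-- There are a complete `ℝ`-tree `T` with a base point and a nonempty (and countable) set `W` in
the Lipschitz free space of `T` which is bounded, satisfies (a) and is uniformly regular, but is
not relatively weakly compact. -/
theorem result : ∃ (T : Type) (_ : MetricSpace T) (o : T) (W : Set (FreeSp T o)),
    IsRTree T ∧ CompleteSpace T ∧ W.Nonempty ∧ W.Countable ∧ Bornology.IsBounded W ∧ CondA W ∧
      UniformlyRegular W ∧ ¬ RelativelyWeaklyCompact W := by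
  refine ⟨Q228.UR.T, inferInstance, Q228.UR.o, Set.range Q228.UR.gam, Q228.UR.isRTree_T,
    Q228.UR.complete_T, Set.range_nonempty _, Set.countable_range _, ?_, ?_, ?_, ?_⟩
  · rw [isBounded_iff_forall_norm_le]
    exact ⟨1, by rintro _ ⟨m, rfl⟩; exact Q228.UR.norm_gam m⟩
  · intro ε hε
    refine ⟨ε, hε, ?_⟩
    rintro n γ a x y ⟨hxy, rfl, hγ⟩ I hI
    rw [← sub_le_iff_le_add']
    refine (Metric.le_infDist (Set.range_nonempty _)).2 ?_
    rintro _ ⟨m, rfl⟩
    rw [sub_le_iff_le_add']
    have := Q228.UR.condA_aux a x y hxy hγ I m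
    rw [dist_eq_norm]
    exact this.trans (add_le_add hI.le le_rfl)
  · intro U hU ε hε
    obtain ⟨K, hK, hKU, h⟩ := Q228.UR.unifReg U hU ε hε
    refine ⟨K, hK, hKU, ?_⟩
    rintro _ ⟨m, rfl⟩
    exact h m
  · exact Q228.UR.not_compact _ fun m => ⟨m, rfl⟩

end Pool.Agent.Results.MP_13bb8c_an.UniformRegularityFails
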